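import Pool.Agent.L7h68.RC.Main

set_option autoImplicit false

namespace Pool.Agent.Results.MP_5f5b92_lc.RamseyNotCanonical

open Pool.Agent.W868 Pool.Agent.L7h68.RC

/-- There is a countable transitive model `M` of ZF with a set `X` such that in `M` Ramsey's
theorem for pairs and `n` colours holds for `X`, for every `n`, but the canonical Ramsey theorem
for pairs fails for `X`. -/
theorem result : ∃ M : Set ZFSet.{0}, M.Countable ∧ IsZF M ∧
    ∃ X ∈ M, (∀ n, RT M n X) ∧ ¬ CRT M X := main

end Pool.Agent.Results.MP_5f5b92_lc.RamseyNotCanonical
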